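import Pool.Agent.helper63.TI.SpecA

/-!
# Row ta:TRF (helper50): the eigenvalues on `V_q` are those on `V_l`
-/

set_option autoImplicit false

namespace Pool.Agent.TI

open Polynomial NumberField Pool.Agent.GJ Pool.Agent.TK Pool.Agent.TQ Pool.Agent.TFQ Pool.Agent.TD Pool.Agent.AQ
open Pool.Agent.FJ (VT Om chiO IsFrobO rf rs)
open scoped TensorProduct

noncomputable section

theorem TRF_iota : Nonempty (Om →+* ℂ) := by
  have : Algebra.IsAlgebraic ℚ Om := AlgebraicClosure.isAlgebraic ℚ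
  exact ⟨(IsAlgClosed.lift : Om →ₐ[ℚ] ℂ).toRingHom⟩

theorem TRF_count : Countable Om := by
  rw [← Cardinal.mk_le_aleph0_iff]
  have h : Algebra.IsAlgebraic ℚ (AlgebraicClosure ℚ) := AlgebraicClosure.isAlgebraic ℚ
  refine (Algebra.IsAlgebraic.cardinalMk_le_max ℚ (AlgebraicClosure ℚ)).trans ?_
  simp

/-- a polynomial in `T` at an eigenvector of `T` -/
theorem TRF_aev {k Ω W : Type} [Field k] [Field Ω] [Algebra k Ω] [AddCommGroup W] [Module Ω W] [Module k W]
    [IsScalarTower k Ω W] (T : Module.End Ω W) (z : Ω) (x : W) (h : T x = z • x) (p : k[X]) :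
    (aeval T p : Module.End Ω W) x = (aeval z p : Ω) • x := by
  have h1 : ∀ i : ℕ, (T ^ i) x = z ^ i • x := by
    intro i
    induction i with
    | zero => rw [pow_zero, pow_zero, one_smul]; rfl
    | succ i ih =>
      rw [pow_succ, Module.End.mul_apply, h, map_smul, ih, smul_smul, pow_succ, mul_comm]
  rw [Polynomial.aeval_eq_sum_range, Polynomial.aeval_eq_sum_range, LinearMap.sum_apply, Finset.sum_smul]
  refine Finset.sum_congr rfl fun i _ => ?_
  rw [LinearMap.smul_apply, h1, smul_assoc]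

/-- the relation on the eigenspace -/
theorem TRF_rel {k Ω V : Type} [Field k] [Field Ω] [Algebra k Ω] [AddCommGroup V] [Module k V]
    (Z g : Module.End k V) (hc : g * Z = Z * g) (n : ℕ) (p : ℕ → k[X])
    (hrel : ∑ d ∈ Finset.range (n + 1), aeval Z (p d) * g ^ (n - d) = 0) (z : Ω) (x : Ω ⊗[k] V)
    (hx : LinearMap.baseChange Ω Z x = z • x) :
    ∑ d ∈ Finset.range (n + 1), (aeval z (p d) : Ω) • ((LinearMap.baseChange Ω g : Module.End Ω (Ω ⊗[k] V)) ^ (n - d)) x = 0 := by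
  have h1 : (Module.End.baseChangeHom k Ω V) (∑ d ∈ Finset.range (n + 1), aeval Z (p d) * g ^ (n - d)) = 0 := by
    rw [hrel, map_zero]
  rw [map_sum] at h1
  have h2 := congrArg (fun T : Module.End Ω (Ω ⊗[k] V) => T x) h1
  simp only [LinearMap.sum_apply, LinearMap.zero_apply] at h2
  rw [← h2]
  refine Finset.sum_congr rfl fun d _ => ?_
  rw [map_mul, map_pow, ← Polynomial.aeval_algHom_apply, Module.End.mul_apply]
  have hcc : (LinearMap.baseChange Ω g : Module.End Ω (Ω ⊗[k] V)) * LinearMap.baseChange Ω Z =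
      LinearMap.baseChange Ω Z * LinearMap.baseChange Ω g := by
    have := congrArg (Module.End.baseChangeHom k Ω V) hc
    rw [map_mul, map_mul] at this
    exact this
  have h3 : ∀ i : ℕ, LinearMap.baseChange Ω Z (((LinearMap.baseChange Ω g : Module.End Ω (Ω ⊗[k] V)) ^ i) x) =
      z • ((LinearMap.baseChange Ω g : Module.End Ω (Ω ⊗[k] V)) ^ i) x := by
    intro i
    induction i with
    | zero => rw [pow_zero]; exact hx
    | succ i ih =>
      rw [pow_succ', Module.End.mul_apply, ← Module.End.mul_apply (LinearMap.baseChange Ω Z), ← hcc, Module.End.mul_apply, ih,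
        map_smul]
  exact (TRF_aev (k := k) _ z _ (h3 _) (p d)).symm

/-- the roots of a polynomial over `Om` -/
theorem TRF_pol {k Ω : Type} [Field k] [IsAlgClosed k] [Field Ω] (j : k →+* Ω) (R : k[X]) (n : ℕ) (hR : R.Monic)
    (hn : R.natDegree = n) (c : Fin n → Ω) (hc : Function.Injective c) (h0 : ∀ t, (R.map j).eval (c t) = 0) :
    ∃ b : Fin n → k, (∀ t, j (b t) = c t) ∧ R = ∏ t, (X - C (b t)) := by
  have h1 : (R.roots.map fun a => X - C a).prod = R :=
    prod_multiset_X_sub_C_of_monic_of_roots_card_eq hR (splits_iff_card_roots.1 (IsAlgClosed.splits R))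
  have h2 : ∀ t, ∃ b : k, R.eval b = 0 ∧ j b = c t := by
    intro t
    have h3 := h0 t
    rw [← h1, Polynomial.map_multiset_prod, Polynomial.eval_multiset_prod, Multiset.map_map, Multiset.map_map,
      Multiset.prod_eq_zero_iff, Multiset.mem_map] at h3
    obtain ⟨b, hb, hb'⟩ := h3
    refine ⟨b, (Polynomial.mem_roots hR.ne_zero).1 hb, ?_⟩
    simp only [Function.comp, Polynomial.map_sub, Polynomial.map_X, Polynomial.map_C, Polynomial.eval_sub, Polynomial.eval_X,
      Polynomial.eval_C] at hb'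
    exact (sub_eq_zero.1 hb').symm
  choose b hb hb' using h2
  refine ⟨b, hb', ?_⟩
  have hinj : Function.Injective b := by
    intro t t' htt
    apply hc
    rw [← hb', ← hb', htt]
  have hmon : (∏ t, (X - C (b t)) : k[X]).Monic := monic_prod_of_monic _ _ fun t _ => monic_X_sub_C _
  refine (eq_of_monic_of_dvd_of_natDegree_le hmon hR ?_ ?_)
  · refine Finset.prod_dvd_of_coprime ?_ fun t _ => Polynomial.dvd_iff_isRoot.2 (hb t)
    intro t _ t' _ htt
    exact Polynomial.pairwise_coprime_X_sub_C hinj htt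
  · rw [natDegree_prod_of_monic _ _ fun t _ => monic_X_sub_C _, hn]
    simp

/-- the polynomial of the relation -/
def TRF_R {k : Type} [Field k] (n : ℕ) (e : ℕ → k) : k[X] := ∑ d ∈ Finset.range (n + 1), C (e d) * X ^ (n - d)

theorem TRF_R_eq {k : Type} [Field k] (n : ℕ) (e : ℕ → k) (h0 : e 0 = 1) :
    TRF_R n e = X ^ n + ∑ d ∈ Finset.range n, C (e (d + 1)) * X ^ (n - (d + 1)) := by
  unfold TRF_R
  rw [Finset.sum_range_succ']
  rw [h0, C_1, one_mul, Nat.sub_zero, add_comm]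

theorem TRF_R_lt {k : Type} [Field k] (n : ℕ) (e : ℕ → k) :
    (∑ d ∈ Finset.range n, C (e (d + 1)) * X ^ (n - (d + 1)) : k[X]).degree < (n : WithBot ℕ) := by
  refine (Polynomial.degree_sum_le _ _).trans_lt ?_
  refine (Finset.sup_lt_iff (WithBot.bot_lt_coe n)).2 ?_
  intro d hd
  refine (Polynomial.degree_C_mul_X_pow_le _ _).trans_lt ?_
  rw [Finset.mem_range] at hd
  have h1 : n - (d + 1) < n := by omega
  exact WithBot.coe_lt_coe.2 h1

theorem TRF_R_monic {k : Type} [Field k] (n : ℕ) (e : ℕ → k) (h0 : e 0 = 1) : (TRF_R n e).Monic := by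
  rw [TRF_R_eq n e h0]
  exact Polynomial.monic_X_pow_add (TRF_R_lt n e)

theorem TRF_R_deg {k : Type} [Field k] (n : ℕ) (e : ℕ → k) (h0 : e 0 = 1) : (TRF_R n e).natDegree = n := by
  rw [TRF_R_eq n e h0]
  apply Polynomial.natDegree_eq_of_degree_eq_some
  rw [Polynomial.degree_add_eq_left_of_degree_lt]
  · exact Polynomial.degree_X_pow n
  · rw [Polynomial.degree_X_pow]
    exact TRF_R_lt n e

theorem TRF_R_zero {k : Type} [Field k] (n : ℕ) (e : ℕ → k) : (TRF_R n e).eval 0 = e n := by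
  unfold TRF_R
  rw [Polynomial.eval_finsetSum, Finset.sum_eq_single n]
  · rw [Nat.sub_self, pow_zero, mul_one, eval_C]
  · intro d hd hdn
    rw [Finset.mem_range] at hd
    rw [eval_mul, eval_C, eval_pow, eval_X, zero_pow (by omega), mul_zero]
  · intro h
    exact absurd (Finset.mem_range.2 (Nat.lt_succ_self n)) h

theorem TRF_R_map {k Ω : Type} [Field k] [Field Ω] (j : k →+* Ω) (n : ℕ) (e : ℕ → k) :
    (TRF_R n e).map j = ∑ d ∈ Finset.range (n + 1), C (j (e d)) * X ^ (n - d) := by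
  unfold TRF_R
  rw [Polynomial.map_sum]
  refine Finset.sum_congr rfl fun d _ => ?_
  rw [Polynomial.map_mul, Polynomial.map_pow, Polynomial.map_C, Polynomial.map_X]

/-- the relation as a polynomial relation for the restricted operator -/
theorem TRF_R_op {k Ω U : Type} [Field k] [Field Ω] [AddCommGroup U] [Module Ω U] (j : k →+* Ω) (n : ℕ) (e : ℕ → k)
    (g : Module.End Ω U) (h : ∀ x, ∑ d ∈ Finset.range (n + 1), j (e d) • (g ^ (n - d)) x = 0) :
    aeval g ((TRF_R n e).map j) = 0 := by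
  rw [TRF_R_map, map_sum]
  ext x
  rw [LinearMap.sum_apply, LinearMap.zero_apply, ← h x]
  refine Finset.sum_congr rfl fun d _ => ?_
  rw [map_mul, map_pow, aeval_C, aeval_X, Module.End.mul_apply, Module.algebraMap_end_apply]

/-- the product over the roots as a list product -/
theorem TRF_list {Ω U : Type} [Field Ω] [AddCommGroup U] [Module Ω U] (n : ℕ) (α : Fin n → Ω) (g : Module.End Ω U)
    (h : aeval g (∏ t, (X - C (α t)) : Polynomial Ω) = 0) :
    ((List.finRange n).map fun t => g - α t • LinearMap.id).prod = (0 : Module.End Ω U) := by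
  rw [← h]
  have h1 : (∏ t, (X - C (α t)) : Polynomial Ω) = ((List.finRange n).map fun t => X - C (α t)).prod := by
    rw [← List.prod_ofFn, List.ofFn_eq_map]
  rw [h1, map_list_prod, List.map_map]
  congr 1
  refine List.map_congr_left fun t _ => ?_
  simp only [Function.comp, map_sub, aeval_X, aeval_C]
  congr 1

/-- the restriction of `bs g` to an eigenspace of `bs Z` -/
theorem TRF_stab {k Ω V : Type} [Field k] [Field Ω] [Algebra k Ω] [AddCommGroup V] [Module k V]
    (Z g : Module.End k V) (hc : g * Z = Z * g) (ζ : Ω) (r : ℕ) (x : Ω ⊗[k] V)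
    (hx : x ∈ eg (LinearMap.baseChange Ω Z) ζ r) : LinearMap.baseChange Ω g x ∈ eg (LinearMap.baseChange Ω Z) ζ r := by
  have hcc : (LinearMap.baseChange Ω g : Module.End Ω (Ω ⊗[k] V)) * LinearMap.baseChange Ω Z =
      LinearMap.baseChange Ω Z * LinearMap.baseChange Ω g := by
    have := congrArg (Module.End.baseChangeHom k Ω V) hc
    rw [map_mul, map_mul] at this
    exact this
  have hx1 : LinearMap.baseChange Ω Z x = ζ ^ r • x := by
    have := LinearMap.mem_ker.1 hx
    rw [LinearMap.sub_apply, LinearMap.smul_apply, LinearMap.id_apply, sub_eq_zero] at this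
    exact this
  refine LinearMap.mem_ker.2 ?_
  rw [LinearMap.sub_apply, LinearMap.smul_apply, LinearMap.id_apply, ← Module.End.mul_apply (LinearMap.baseChange Ω Z), ← hcc,
    Module.End.mul_apply, hx1, map_smul, sub_self]

theorem TRF_mem {k Ω V : Type} [Field k] [Field Ω] [Algebra k Ω] [AddCommGroup V] [Module k V]
    (Z : Module.End k V) (ζ : Ω) (r : ℕ) (x : Ω ⊗[k] V)
    (hx : x ∈ eg (LinearMap.baseChange Ω Z) ζ r) : LinearMap.baseChange Ω Z x = ζ ^ r • x := by
  have := LinearMap.mem_ker.1 hx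
  rw [LinearMap.sub_apply, LinearMap.smul_apply, LinearMap.id_apply, sub_eq_zero] at this
  exact this

/-- the values of the coefficients -/
theorem TRF_val {k Ω : Type} [Field k] [Field Ω] [Algebra k Ω] (j : Om →+* Ω) (z : Om) (P : Polynomial ℤ) :
    (aeval (j z) (P.map (Int.castRingHom k)) : Ω) = j (aeval z P) := by
  rw [Polynomial.aeval_def, Polynomial.eval₂_map, Polynomial.aeval_def, Polynomial.hom_eval₂]
  have h1 : (algebraMap k Ω).comp (Int.castRingHom k) = j.comp (algebraMap ℤ Om) := RingHom.ext_int _ _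
  rw [h1]

/-- THE RELATION on one eigenspace -/
theorem TRF_one {k V : Type} {Ω : Type} [Field k] [Field Ω] [Algebra k Ω] [AddCommGroup V] [Module k V]
    (Z g : Module.End k V) (hc : g * Z = Z * g) (n : ℕ) (P : ℕ → Polynomial ℤ)
    (hrel : ∑ d ∈ Finset.range (n + 1), aeval Z ((P d).map (Int.castRingHom k)) * g ^ (n - d) = 0)
    (j : Om →+* Ω) (z : Om) (r : ℕ)
    (g' : eg (LinearMap.baseChange Ω Z) (j z) r →ₗ[Ω] eg (LinearMap.baseChange Ω Z) (j z) r)
    (hg' : ∀ w, (g' w : Ω ⊗[k] V) = LinearMap.baseChange Ω g (w : Ω ⊗[k] V)) :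
    aeval (g' : Module.End Ω (eg (LinearMap.baseChange Ω Z) (j z) r))
      ((TRF_R n fun d => aeval (z ^ r) (P d)).map j) = 0 := by
  refine TRF_R_op (U := eg (LinearMap.baseChange Ω Z) (j z) r) j n (fun d => aeval (z ^ r) (P d)) g' ?_
  intro x
  apply Subtype.ext
  have h1 : ∀ i : ℕ, (((g' : Module.End Ω (eg (LinearMap.baseChange Ω Z) (j z) r)) ^ i) x : Ω ⊗[k] V) =
      ((LinearMap.baseChange Ω g : Module.End Ω (Ω ⊗[k] V)) ^ i) (x : Ω ⊗[k] V) := by
    intro i
    induction i with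
    | zero => rw [pow_zero, pow_zero]; rfl
    | succ i ih => rw [pow_succ', Module.End.mul_apply, pow_succ', Module.End.mul_apply, hg', ih]
  have h2 := TRF_rel Z g hc n (fun d => (P d).map (Int.castRingHom k)) hrel ((j z) ^ r) (x : Ω ⊗[k] V)
    (TRF_mem Z (j z) r _ x.2)
  rw [Submodule.coe_zero, ← h2, Submodule.coe_sum]
  refine Finset.sum_congr rfl fun d _ => ?_
  rw [Submodule.coe_smul, h1]
  congr 1
  rw [← map_pow, TRF_val]

theorem TRF_inj {k Ω V : Type} [Field k] [Field Ω] [Algebra k Ω] [AddCommGroup V] [Module k V]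
    (g g1 : Module.End k V) (h : g1 * g = 1) (x : Ω ⊗[k] V) (hx : LinearMap.baseChange Ω g x = 0) : x = 0 := by
  have h1 := congrArg (Module.End.baseChangeHom k Ω V) h
  rw [map_mul, map_one] at h1
  have h2 := congrArg (fun T : Module.End Ω (Ω ⊗[k] V) => T x) h1
  have h3 : (Module.End.baseChangeHom k Ω V g1) ((Module.End.baseChangeHom k Ω V g) x) = x := h2
  rw [← h3]
  have h4 : (Module.End.baseChangeHom k Ω V g) x = 0 := hx
  rw [h4, map_zero]

/-- the restriction -/
theorem TRF_res {k Ω V : Type} [Field k] [Field Ω] [Algebra k Ω] [AddCommGroup V] [Module k V]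
    (Z g : Module.End k V) (hc : g * Z = Z * g) (ζ : Ω) (r : ℕ) :
    ∃ g' : eg (LinearMap.baseChange Ω Z) ζ r →ₗ[Ω] eg (LinearMap.baseChange Ω Z) ζ r,
      ∀ w, (g' w : Ω ⊗[k] V) = LinearMap.baseChange Ω g (w : Ω ⊗[k] V) :=
  ⟨(LinearMap.baseChange Ω g).restrict fun x hx => TRF_stab Z g hc ζ r x hx, fun _ => rfl⟩

theorem TRF_prim (l : ℕ) [Fact l.Prime] : ∃ s : rootsOfUnity l Om, Prim s := by
  have hl : l.Prime := Fact.out
  have hl0 : NeZero (l : Om) := ⟨by exact_mod_cast hl.ne_zero⟩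
  obtain ⟨ζ, hζ⟩ := HasEnoughRootsOfUnity.exists_primitiveRoot Om l
  refine ⟨hζ.toRootsOfUnity, ?_⟩
  exact hζ

/-- the arithmetic of the exponents -/
theorem TRF_mult {Ω Ω' : Type} [Field Ω] [Field Ω'] (jl : Om →+* Ω) (jq : Om →+* Ω') (n w : ℕ) (hn : 0 < n) (hw : 0 < w)
    (b : Fin n → Om) (c : Fin n → Ω) (hb : ∀ t, jl (b t) = c t) (hc : ∀ t, c t ≠ 0)
    (hrel : ∀ k : Fin n → ℤ, (∀ t, |k t| ≤ (w : ℤ) * n) → ∑ t, k t = 0 → ∏ t, c t ^ k t = 1 → k = 0)
    (m : Fin n → ℕ) (hm : ∑ t, m t = n) (h : ∏ t, (jq (b t)) ^ (w * m t) = (∏ t, jq (b t)) ^ w) : ∀ t, m t = 1 := by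
  intro t
  have h3 : ∏ t, (b t) ^ (w * m t) = (∏ t, b t) ^ w := by
    apply jq.injective
    rw [map_prod, map_pow, map_prod, ← h]
    exact Finset.prod_congr rfl fun t _ => by rw [map_pow]
  have h4 : ∏ t, (c t) ^ (w * m t) = (∏ t, c t) ^ w := by
    have h5 := congrArg jl h3
    rw [map_prod, map_pow, map_prod] at h5
    simp only [map_pow, hb] at h5
    exact h5
  have h6 := hrel (fun t => (w : ℤ) * ((m t : ℤ) - 1)) ?_ ?_ ?_
  · have h7 := congrFun h6 t
    have h8 : (w : ℤ) * ((m t : ℤ) - 1) = 0 := h7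
    rcases mul_eq_zero.1 h8 with h9 | h9
    · omega
    · omega
  · intro t
    have h7 : m t ≤ n := by
      rw [← hm]
      exact Finset.single_le_sum (f := m) (fun i _ => Nat.zero_le _) (Finset.mem_univ t)
    rw [abs_mul, abs_of_nonneg (Int.natCast_nonneg w)]
    refine mul_le_mul_of_nonneg_left ?_ (Int.natCast_nonneg w)
    rw [abs_le]
    constructor <;> omega
  · rw [← Finset.mul_sum, Finset.sum_sub_distrib]
    have h7 : (∑ t, (m t : ℤ)) = n := by exact_mod_cast hm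
    rw [h7]
    simp
  · have h7 : ∀ t, c t ^ ((w : ℤ) * ((m t : ℤ) - 1)) = c t ^ (w * m t) * (c t ^ w)⁻¹ := by
      intro t
      rw [mul_sub, mul_one, zpow_sub₀ (hc t), div_eq_mul_inv]
      congr 1
      · exact_mod_cast zpow_natCast (c t) (w * m t)
      · rw [zpow_natCast]
    rw [Finset.prod_congr rfl fun t _ => h7 t, Finset.prod_mul_distrib, h4, Finset.prod_inv_distrib, Finset.prod_pow]
    exact mul_inv_cancel₀ (pow_ne_zero _ (Finset.prod_ne_zero_iff.2 fun t _ => hc t))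

/-- the eigenvalues are different -/
theorem TRF_dist {Ω : Type} [Field Ω] (n w : ℕ) (hn : 0 < n) (hw : 0 < w) (c : Fin n → Ω) (hc : ∀ t, c t ≠ 0)
    (hrel : ∀ k : Fin n → ℤ, (∀ t, |k t| ≤ (w : ℤ) * n) → ∑ t, k t = 0 → ∏ t, c t ^ k t = 1 → k = 0) :
    Function.Injective c := by
  intro t t' htt
  by_contra hne
  have h0 : (1 : ℤ) ≤ (w : ℤ) * n := by
    have : 0 < w * n := Nat.mul_pos hw hn
    exact_mod_cast this
  have h1 := hrel (fun i => (if i = t then 1 else 0) - (if i = t' then 1 else 0)) ?_ ?_ ?_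
  · have h2 := congrFun h1 t
    have h3 : (if t = t then (1 : ℤ) else 0) - (if t = t' then (1 : ℤ) else 0) = 0 := h2
    rw [if_pos rfl, if_neg hne] at h3
    omega
  · intro i
    refine le_trans ?_ h0
    rw [abs_le]
    constructor <;> split_ifs <;> omega
  · rw [Finset.sum_sub_distrib]
    simp
  · have h2 : ∀ i, c i ^ ((if i = t then (1 : ℤ) else 0) - (if i = t' then (1 : ℤ) else 0)) =
        (if i = t then c i else 1) * (if i = t' then c i else 1)⁻¹ := by
      intro i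
      rw [zpow_sub₀ (hc i), div_eq_mul_inv]
      congr 1
      · split_ifs
        · exact zpow_one _
        · exact zpow_zero _
      · congr 1
        split_ifs
        · exact zpow_one _
        · exact zpow_zero _
    rw [Finset.prod_congr rfl fun i _ => h2 i, Finset.prod_mul_distrib, Finset.prod_inv_distrib]
    simp only [Finset.prod_ite_eq', Finset.mem_univ, if_true]
    rw [htt]
    exact mul_inv_cancel₀ (hc t')

theorem TRF_fl {q l : ℕ} [Fact q.Prime] (n : ℕ) (p : Polynomial ℚ_[q]) :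
    (fl ((-1) ^ n * p) : Fl q l) = (-1) ^ n * fl p := by
  show AdjoinRoot.mk (cyclotomic l ℚ_[q]) ((-1) ^ n * p) = (-1) ^ n * AdjoinRoot.mk (cyclotomic l ℚ_[q]) p
  rw [map_mul, map_pow, map_neg, map_one]

theorem TRF (hGDF : GDF_stmt) (hDTU : DTU_stmt) (hQB2 : TFQ.QB2_stmt) (hQCF : TFQ.QCF_stmt) (hVF : TD.VF_stmt)
    (hNBK : TD.NBK_stmt) (hLP : TD.LP_stmt) (hLDE : AQ.LDE_stmt) (hLMU : AQ.LMU_stmt) (hDD : GJ.DD_stmt) : TRF_stmt := by
  intro l n q _ _ hl hn μ a _
  have hlp : l.Prime := Fact.out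
  have hl0 : NeZero (l : Om) := ⟨by exact_mod_cast hlp.ne_zero⟩
  have hded : IsDedekindDomain (CR Om l μ a) := hDD Om l n μ a
  obtain ⟨ι⟩ := TRF_iota
  have hcount : Countable Om := TRF_count
  obtain ⟨s0, hs0⟩ := TRF_prim l
  have hfl : FiniteDimensional ℚ_[l] (VT l (JC Om l μ a)) := by
    obtain ⟨v1, b1, -⟩ := @hVF Om _ _ hcount ι l n l _ _ hl hn μ a _ hded s0 hs0
    exact Module.Finite.of_basis b1
  have hfq : FiniteDimensional ℚ_[q] (VT q (JC Om l μ a)) := by
    obtain ⟨v1, b1, -⟩ := @hVF Om _ _ hcount ι l n q _ _ hl hn μ a _ hded s0 hs0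
    exact Module.Finite.of_basis b1
  obtain ⟨w, Dq, hw, hDq, HG⟩ := hGDF l n q hl hn μ a
  obtain ⟨D1, hD1, H1⟩ := hQB2 l n l μ a hfl
  obtain ⟨D2, hD2, H2⟩ := hQB2 l n q μ a hfq
  refine ⟨w, Dq * D1 * D2, hw, Nat.mul_pos (Nat.mul_pos hDq hD1) hD2, ?_⟩
  intro p M α _ F _ _ _ O _ e χ σ A hP hcq hD0 s hs jl jq r hr hrl v c hvc hrelc
  rw [Nat.cast_mul, Nat.cast_mul, mul_ne_zero_iff, mul_ne_zero_iff] at hD0
  obtain ⟨⟨hDq', hD1'⟩, hD2'⟩ := hD0
  have hχ : χ ^ l = 1 := by
    have := pow_orderOf_eq_one χ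
    rwa [hP.ord] at this
  obtain ⟨P, hP0, hPev, hPop⟩ := hQCF l n μ F χ A s hs hχ
  have hroot : σ ((s : Omˣ) : Om) = ((s : Omˣ) : Om) := by
    apply hP.zeta
    rw [← Units.val_pow_eq_pow_val, (mem_rootsOfUnity l _).1 s.2, Units.val_one]
  obtain ⟨hmull, honel, hcomml, -⟩ := hNBK Om l n l μ a
  obtain ⟨-, -, hcommq, hsumq, -⟩ := hNBK Om l n q μ a
  have R1 : ∑ d ∈ Finset.range (n + 1), aeval (zK l s : Module.End ℚ_[l] (VT l (JC Om l μ a))) ((P d).map (Int.castRingHom ℚ_[l])) *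
      (VT.map l (actA σ hP.fix (1 : rootsOfUnity l Om)) : Module.End ℚ_[l] (VT l (JC Om l μ a))) ^ (n - d) = 0 := by
    rw [← H1 p M α F O e χ σ A hP hcq hD1']
    exact Finset.sum_congr rfl fun d _ => by rw [hPop l a d]
  have R2 : ∑ d ∈ Finset.range (n + 1), aeval (zK q s : Module.End ℚ_[q] (VT q (JC Om l μ a))) ((P d).map (Int.castRingHom ℚ_[q])) *
      (VT.map q (actA σ hP.fix (1 : rootsOfUnity l Om)) : Module.End ℚ_[q] (VT q (JC Om l μ a))) ^ (n - d) = 0 := by
    rw [← H2 p M α F O e χ σ A hP hcq hD2']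
    exact Finset.sum_congr rfl fun d _ => by rw [hPop q a d]
  have hcl := hcomml σ hP.fix s hroot
  have hcq2 := hcommq σ hP.fix s hroot
  -- the polynomial
  have he0 : (fun d => (aeval (((s : Omˣ) : Om) ^ r) (P d) : Om)) 0 = 1 := by
    show (aeval (((s : Omˣ) : Om) ^ r) (P 0) : Om) = 1
    rw [hP0, map_one]
  have hRm := TRF_R_monic n (fun d => (aeval (((s : Omˣ) : Om) ^ r) (P d) : Om)) he0
  have hRd := TRF_R_deg n (fun d => (aeval (((s : Omˣ) : Om) ^ r) (P d) : Om)) he0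
  have hR0 := TRF_R_zero n (fun d => (aeval (((s : Omˣ) : Om) ^ r) (P d) : Om))
  -- the side of `l`
  have hc0 : ∀ t, c t ≠ 0 := by
    intro t h0
    have hone' : ∀ (τ : Om ≃+* Om) (_ : τ = 1) (h : ∀ j, τ (a j) = a j),
        (VT.map l (actA τ h (1 : rootsOfUnity l Om)) : Module.End ℚ_[l] (VT l (JC Om l μ a))) = 1 := by
      rintro _ rfl h
      exact honel h
    have hfix' : ∀ j, σ⁻¹ (a j) = a j := fun j => by
      show σ.symm (a j) = a j
      exact (RingEquiv.symm_apply_eq σ).2 (hP.fix j).symm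
    have h1 : (VT.map l (actA σ⁻¹ hfix' (1 : rootsOfUnity l Om)) : Module.End ℚ_[l] (VT l (JC Om l μ a))) *
        VT.map l (actA σ hP.fix (1 : rootsOfUnity l Om)) = 1 := by
      rw [← hmull σ⁻¹ σ hfix' hP.fix (fun j => by rw [RingAut.mul_apply, hP.fix, hfix'])]
      exact hone' _ (inv_mul_cancel σ) _
    have h2 := TRF_inj (Ω := PadicAlgCl l) _ _ h1 (v t : PadicAlgCl l ⊗[ℚ_[l]] VT l (JC Om l μ a))
      (by
        have := hvc t
        rw [h0, zero_smul] at this
        exact this)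
    exact v.ne_zero t (Subtype.ext h2)
  have hcinj := TRF_dist n w hn hw c hc0 hrelc
  obtain ⟨gl, hgl⟩ := TRF_res (Ω := PadicAlgCl l) (zK l s : Module.End ℚ_[l] (VT l (JC Om l μ a)))
    (VT.map l (actA σ hP.fix (1 : rootsOfUnity l Om))) hcl (jl ((s : Omˣ) : Om)) r
  have hRl := TRF_one _ _ hcl n P R1 jl ((s : Omˣ) : Om) r gl hgl
  have hev : ∀ t, ((TRF_R n fun d => (aeval (((s : Omˣ) : Om) ^ r) (P d) : Om)).map jl).eval (c t) = 0 := by
    intro t
    have h1 : gl (v t) = c t • v t := by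
      apply Subtype.ext
      rw [hgl, Submodule.coe_smul]
      exact hvc t
    have h2 := TRF_aev (k := PadicAlgCl l) (gl : Module.End (PadicAlgCl l) _) (c t) (v t) h1
      ((TRF_R n fun d => (aeval (((s : Omˣ) : Om) ^ r) (P d) : Om)).map jl)
    rw [hRl, LinearMap.zero_apply] at h2
    rcases smul_eq_zero.1 h2.symm with h3 | h3
    · rwa [Polynomial.coe_aeval_eq_eval] at h3
    · exact absurd h3 (v.ne_zero t)
  obtain ⟨b, hb, hRb⟩ := TRF_pol jl _ n hRm hRd c hcinj hev
  have hbinj : Function.Injective b := by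
    intro t t' htt
    apply hcinj
    rw [← hb, ← hb, htt]
  -- the side of `q`
  obtain ⟨vq, bq, hbq⟩ := @hVF Om _ _ hcount ι l n q _ _ hl hn μ a _ hded s hs
  have hfree : IsFreeZ l n (zK q s : Module.End ℚ_[q] (VT q (JC Om l μ a))) := ⟨vq, bq, hbq⟩
  have hsum := hsumq s hs
  have hprim : IsPrimitiveRoot (jq ((s : Omˣ) : Om)) l := IsPrimitiveRoot.map_of_injective hs jq.injective
  have hdim := (hLDE ℚ_[q] (PadicAlgCl q) (VT q (JC Om l μ a)) l n hlp (zK q s) vq bq hbq hsum (jq ((s : Omˣ) : Om)) hprim).1 r hr hrl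
  obtain ⟨gq', hgq⟩ := TRF_res (Ω := PadicAlgCl q) (zK q s : Module.End ℚ_[q] (VT q (JC Om l μ a)))
    (VT.map q (actA σ hP.fix (1 : rootsOfUnity l Om))) hcq2 (jq ((s : Omˣ) : Om)) r
  have hRq := TRF_one _ _ hcq2 n P R2 jq ((s : Omˣ) : Om) r gq' hgq
  have hprod := TRF_list (Ω := PadicAlgCl q)
    (U := eg (LinearMap.baseChange (PadicAlgCl q) (zK q s : Module.End ℚ_[q] (VT q (JC Om l μ a)))) (jq ((s : Omˣ) : Om)) r)
    n (fun t => jq (b t)) gq' (by
    rw [hRb, Polynomial.map_prod] at hRq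
    simp only [Polynomial.map_sub, Polynomial.map_X, Polynomial.map_C] at hRq
    exact hRq)
  have hfdim : FiniteDimensional (PadicAlgCl q) (eg (LinearMap.baseChange (PadicAlgCl q) (zK q s : Module.End ℚ_[q] (VT q (JC Om l μ a))))
      (jq ((s : Omˣ) : Om)) r) := FiniteDimensional.of_finrank_pos (by rw [hdim]; exact hn)
  obtain ⟨x, hx⟩ := (hLP q l (VT q (JC Om l μ a)) (zK q s) n hfree hsum).1 _ hcq2
  have hx' := HG p M α F O e χ σ A hP hcq hDq' s hs P ⟨hP0, hPev, fun d => hPop q a d⟩ x hx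
  have hdet := hDTU q l n (VT q (JC Om l μ a)) (zK q s) (VT.map q (actA σ hP.fix (1 : rootsOfUnity l Om))) hfree hsum hcq2
    ((-1) ^ n * (P n).map (Int.castRingHom ℚ_[q])) w x hx (by
      rw [hx', TRF_fl]) (jq ((s : Omˣ) : Om)) hprim r hr hrl gq' hgq
  have hval : (aeval (jq ((s : Omˣ) : Om) ^ r) ((-1) ^ n * (P n).map (Int.castRingHom ℚ_[q])) : PadicAlgCl q) = ∏ t, jq (b t) := by
    rw [map_mul, map_pow, map_neg, map_one, ← map_pow, TRF_val, ← hR0, hRb, Polynomial.eval_prod, map_prod]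
    simp only [Polynomial.eval_sub, Polynomial.eval_X, Polynomial.eval_C, zero_sub, map_neg]
    rw [Finset.prod_neg]
    simp only [Finset.card_univ, Fintype.card_fin]
    rw [← mul_assoc, ← pow_add, ← two_mul, pow_mul, neg_one_sq, one_pow, one_mul]
  rw [hval] at hdet
  obtain ⟨v', hv'⟩ := hLMU (PadicAlgCl q) (eg (LinearMap.baseChange (PadicAlgCl q) (zK q s : Module.End ℚ_[q] (VT q (JC Om l μ a))))
      (jq ((s : Omˣ) : Om)) r) n w hdim (fun t => jq (b t)) (fun t t' h => hbinj (jq.injective h)) gq' hprod hdet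
    (fun m hm1 hm2 => TRF_mult jl jq n w hn hw b c hb hc0 hrelc m hm1 hm2)
  refine ⟨b, v', hb, fun t => ?_⟩
  have h1 := hgq (v' t)
  rw [hv', dg_apply] at h1
  exact h1.symm

end

end Pool.Agent.TI
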